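import Mathlib

/-!
# A lower bound for the size of graphs with bounded maximum local connectivity

The starting point is a regular graph `Λ` of degree `j`.  Every vertex of `Λ` is replaced by a
clique on `m` vertices and every edge of `Λ` by one new vertex joined to all vertices of the two
cliques at its ends.  With `m + j = k + 1` the resulting graph has maximum local connectivity `k`.
-/

namespace Pool.Agent.Results.MP_0bab5c_co.CliqueNet

open SimpleGraph

/-- The least size of a set `S` of vertices, containing neither `x` nor `y`, that meets every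
walk from `x` to `y` in `G`. -/
noncomputable def sepNum {V : Type} (G : SimpleGraph V) (x y : V) : ℕ :=
  sInf {m | ∃ S : Finset V, x ∉ S ∧ y ∉ S ∧
    (∀ p : G.Walk x y, ∃ v ∈ p.support, v ∈ S) ∧ S.card = m}

open Classical in
/-- The local connectivity of `x` and `y`: for non-adjacent `x`, `y` it is the least size of an
`x`-`y` separator, for adjacent ones it is one more than the same number after deleting the
edge `xy`. -/
noncomputable def localConn {V : Type} (G : SimpleGraph V) (x y : V) : ℕ :=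
  if G.Adj x y then sepNum (G.deleteEdges {s(x, y)}) x y + 1 else sepNum G x y

/-- The maximum local connectivity. -/
noncomputable def maxLocalConn {V : Type} (G : SimpleGraph V) : ℕ :=
  sSup {m | ∃ x y : V, x ≠ y ∧ localConn G x y = m}

/-- `f n k` is the largest number of edges of a graph with `n` vertices whose maximum local
connectivity equals `k`. -/
noncomputable def f (n k : ℕ) : ℕ :=
  sSup {e | ∃ (V : Type) (_ : Fintype V) (G : SimpleGraph V),
    Fintype.card V = n ∧ maxLocalConn G = k ∧ G.edgeSet.ncard = e}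

section general

variable {V : Type} {G : SimpleGraph V}

lemma hit_of_closed {S : Finset V} {C : Set V}
    (hcl : ∀ a ∈ C, ∀ b, G.Adj a b → b ∈ C ∨ b ∈ S) :
    ∀ {x y : V} (p : G.Walk x y), x ∈ C → y ∉ C → ∃ v ∈ p.support, v ∈ S := by
  intro x y p
  induction p with
  | nil => intro hx hy; exact absurd hx hy
  | @cons u v w h q ih =>
    intro hx hy
    rcases hcl u hx v h with h1 | h1
    · obtain ⟨z, hz, hzS⟩ := ih h1 hy
      exact ⟨z, by simp [Walk.support_cons, hz], hzS⟩
    · refine ⟨v, ?_, h1⟩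
      simp [Walk.support_cons]

lemma sepNum_le {x y : V} (S : Finset V) (hx : x ∉ S) (hy : y ∉ S)
    (h : ∀ p : G.Walk x y, ∃ v ∈ p.support, v ∈ S) : sepNum G x y ≤ S.card :=
  Nat.sInf_le ⟨S, hx, hy, h, rfl⟩

lemma sepNum_comm (x y : V) : sepNum G x y = sepNum G y x := by
  unfold sepNum
  congr 1
  ext m
  constructor
  · rintro ⟨S, hx, hy, h, hc⟩
    refine ⟨S, hy, hx, fun p => ?_, hc⟩
    obtain ⟨v, hv, hvS⟩ := h p.reverse
    exact ⟨v, by simpa using hv, hvS⟩
  · rintro ⟨S, hx, hy, h, hc⟩
    refine ⟨S, hy, hx, fun p => ?_, hc⟩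
    obtain ⟨v, hv, hvS⟩ := h p.reverse
    exact ⟨v, by simpa using hv, hvS⟩

lemma localConn_comm (x y : V) : localConn G x y = localConn G y x := by
  unfold localConn
  have h1 : G.Adj x y ↔ G.Adj y x := G.adj_comm x y
  by_cases h : G.Adj x y
  · rw [if_pos h, if_pos (h1.1 h), sepNum_comm, Sym2.eq_swap]
  · rw [if_neg h, if_neg (fun h' => h (h1.2 h')), sepNum_comm]

lemma localConn_le_of_nbr [DecidableEq V] {x y : V} (hxy : x ≠ y) (N : Finset V)
    (hN : ∀ b, G.Adj x b ↔ b ∈ N) : localConn G x y ≤ N.card := by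
  have hxN : x ∉ N := fun h => G.loopless.irrefl x ((hN x).2 h)
  unfold localConn
  split_ifs with h
  · have hyN : y ∈ N := (hN y).1 h
    have hle : sepNum (G.deleteEdges {s(x, y)}) x y ≤ (N.erase y).card := by
      apply sepNum_le
      · simp [hxN]
      · simp
      · intro p
        refine hit_of_closed (C := {x}) ?_ p rfl ?_
        · intro a ha b hab
          simp only [Set.mem_singleton_iff] at ha
          subst ha
          rw [deleteEdges_adj] at hab
          right
          rw [Finset.mem_erase]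
          refine ⟨?_, (hN b).1 hab.1⟩
          rintro rfl
          exact hab.2 rfl
        · simpa using hxy.symm
    have hpos : 0 < N.card := Finset.card_pos.2 ⟨y, hyN⟩
    rw [Finset.card_erase_of_mem hyN] at hle
    omega
  · apply sepNum_le _ hxN (fun h' => h ((hN y).2 h'))
    intro p
    refine hit_of_closed (C := {x}) ?_ p rfl ?_
    · intro a ha b hab
      simp only [Set.mem_singleton_iff] at ha
      subst ha
      exact Or.inr ((hN b).1 hab)
    · simpa using hxy.symm

end general

/-! ### The construction -/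

/-- The clique net over `Λ`: the vertices `(b, i)` with fixed `b` form a clique, an edge `e` of
`Λ` is joined to all `(b, i)` with `b ∈ e`; there are `r` further isolated vertices. -/
def net {β : Type} (Λ : SimpleGraph β) (m r : ℕ) :
    SimpleGraph ((β × Fin m) ⊕ (Λ.edgeSet ⊕ Fin r)) where
  Adj
    | .inl p, .inl q => p ≠ q ∧ p.1 = q.1
    | .inl p, .inr (.inl e) => p.1 ∈ (e : Sym2 β)
    | .inr (.inl e), .inl p => p.1 ∈ (e : Sym2 β)
    | _, _ => False
  symm := ⟨by
    rintro (p | (e | i)) (q | (e' | i')) h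
    · exact ⟨h.1.symm, h.2.symm⟩
    all_goals exact h⟩
  loopless := ⟨by
    rintro (p | (e | i)) h
    · exact h.1 rfl
    all_goals exact h⟩

section net

variable {β : Type} {Λ : SimpleGraph β} {m r : ℕ}

@[simp] lemma net_ll (p q : β × Fin m) :
    (net Λ m r).Adj (.inl p) (.inl q) ↔ p ≠ q ∧ p.1 = q.1 := Iff.rfl
@[simp] lemma net_lh (p : β × Fin m) (e : Λ.edgeSet) :
    (net Λ m r).Adj (.inl p) (.inr (.inl e)) ↔ p.1 ∈ (e : Sym2 β) := Iff.rfl
@[simp] lemma net_hl (p : β × Fin m) (e : Λ.edgeSet) :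
    (net Λ m r).Adj (.inr (.inl e)) (.inl p) ↔ p.1 ∈ (e : Sym2 β) := Iff.rfl
@[simp] lemma net_hh (e e' : Λ.edgeSet) :
    (net Λ m r).Adj (.inr (.inl e)) (.inr (.inl e')) ↔ False := Iff.rfl
@[simp] lemma net_li (p : β × Fin m) (i : Fin r) :
    (net Λ m r).Adj (.inl p) (.inr (.inr i)) ↔ False := Iff.rfl
@[simp] lemma net_il (p : β × Fin m) (i : Fin r) :
    (net Λ m r).Adj (.inr (.inr i)) (.inl p) ↔ False := Iff.rfl
@[simp] lemma net_ir (x : Λ.edgeSet ⊕ Fin r) (i : Fin r) :
    (net Λ m r).Adj (.inr (.inr i)) (.inr x) ↔ False := by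
  rcases x with x | x <;> exact Iff.rfl
@[simp] lemma net_ri (x : Λ.edgeSet ⊕ Fin r) (i : Fin r) :
    (net Λ m r).Adj (.inr x) (.inr (.inr i)) ↔ False := by
  rcases x with x | x <;> exact Iff.rfl

variable [Fintype β] [DecidableEq β] [DecidableRel Λ.Adj] {j : ℕ}

/-- The edges of `Λ` at `b`, as elements of the edge set. -/
def edgesAt (Λ : SimpleGraph β) [DecidableRel Λ.Adj] (b : β) : Finset Λ.edgeSet :=
  Finset.univ.filter (fun e => b ∈ (e : Sym2 β))

lemma card_edgesAt (hΛ : Λ.IsRegularOfDegree j) (b : β) : (edgesAt Λ b).card = j := by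
  have h1 : (edgesAt Λ b).map (Function.Embedding.subtype _) = Λ.incidenceFinset b := by
    ext e
    simp only [edgesAt, Finset.mem_map, Finset.mem_filter, Finset.mem_univ, true_and,
      Function.Embedding.coe_subtype, mem_incidenceFinset, incidenceSet, Set.mem_ofPred_eq]
    constructor
    · rintro ⟨a, h, rfl⟩
      exact ⟨a.2, h⟩
    · rintro ⟨h, h'⟩
      exact ⟨⟨e, h⟩, h', rfl⟩
  rw [← Finset.card_map (Function.Embedding.subtype _), h1, card_incidenceFinset_eq_degree]
  exact hΛ b

/-- The lows over `b`. -/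
def lowEmb (Λ : SimpleGraph β) (m r : ℕ) (b : β) :
    Fin m ↪ ((β × Fin m) ⊕ (Λ.edgeSet ⊕ Fin r)) where
  toFun i := .inl (b, i)
  inj' x y h := by simpa using h

/-- The highs. -/
def highEmb (Λ : SimpleGraph β) (m r : ℕ) :
    Λ.edgeSet ↪ ((β × Fin m) ⊕ (Λ.edgeSet ⊕ Fin r)) where
  toFun e := .inr (.inl e)
  inj' x y h := by simpa using h

@[simp] lemma lowEmb_apply (b : β) (i : Fin m) : lowEmb Λ m r b i = .inl (b, i) := rfl
@[simp] lemma highEmb_apply (e : Λ.edgeSet) : highEmb Λ m r e = .inr (.inl e) := rfl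

/-- The neighbours of the low vertex `p`. -/
def lowNbr (Λ : SimpleGraph β) [DecidableRel Λ.Adj] (m r : ℕ) (p : β × Fin m) :
    Finset ((β × Fin m) ⊕ (Λ.edgeSet ⊕ Fin r)) :=
  ((Finset.univ.erase p.2).map (lowEmb Λ m r p.1)).disjUnion
    ((edgesAt Λ p.1).map (highEmb Λ m r)) (by
      rw [Finset.disjoint_left]
      intro x hx hx'
      simp only [Finset.mem_map] at hx hx'
      obtain ⟨a, -, rfl⟩ := hx
      obtain ⟨b, -, h⟩ := hx'
      simp at h)

lemma card_lowNbr (hΛ : Λ.IsRegularOfDegree j) (p : β × Fin m) :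
    (lowNbr Λ m r p).card = (m - 1) + j := by
  rw [lowNbr, Finset.card_disjUnion, Finset.card_map, Finset.card_map, card_edgesAt hΛ,
    Finset.card_erase_of_mem (Finset.mem_univ _), Finset.card_univ, Fintype.card_fin]

lemma mem_lowNbr (p : β × Fin m) (x : (β × Fin m) ⊕ (Λ.edgeSet ⊕ Fin r)) :
    (net Λ m r).Adj (.inl p) x ↔ x ∈ lowNbr Λ m r p := by
  rcases x with q | (e | i)
  · obtain ⟨a, i⟩ := p
    obtain ⟨b, i'⟩ := q
    simp only [net_ll, lowNbr, Finset.mem_disjUnion, Finset.mem_map, Finset.mem_erase,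
      Finset.mem_univ, and_true, lowEmb_apply, highEmb_apply, Sum.inl.injEq, Prod.mk.injEq,
      reduceCtorEq, and_false, exists_false, or_false, ne_eq, not_and]
    constructor
    · rintro ⟨h, rfl⟩
      exact ⟨i', fun h' => h rfl h'.symm, rfl, rfl⟩
    · rintro ⟨c, hc, rfl, rfl⟩
      exact ⟨fun _ h => hc h.symm, rfl⟩
  · simp [lowNbr, edgesAt]
  · simp [lowNbr]

/-- The lows of one block. -/
def blockSet (Λ : SimpleGraph β) (m r : ℕ) (b : β) :
    Finset ((β × Fin m) ⊕ (Λ.edgeSet ⊕ Fin r)) :=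
  (Finset.univ : Finset (Fin m)).map (lowEmb Λ m r b)

/-- The highs at `b` other than `e`. -/
def highsBut (Λ : SimpleGraph β) [DecidableRel Λ.Adj] (m r : ℕ) (b : β) (e : Λ.edgeSet) :
    Finset ((β × Fin m) ⊕ (Λ.edgeSet ⊕ Fin r)) :=
  ((edgesAt Λ b).erase e).map (highEmb Λ m r)

lemma sep_high (hm : 2 ≤ m) (hΛ : Λ.IsRegularOfDegree j) (u v : Λ.edgeSet) (huv : u ≠ v) :
    sepNum (net Λ m r) (.inr (.inl u)) (.inr (.inl v)) ≤ (m - 1) + j := by
  obtain ⟨a, b, hu, hbv⟩ : ∃ a b : β, (u : Sym2 β) = s(a, b) ∧ b ∉ (v : Sym2 β) := by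
    obtain ⟨⟨a, b⟩, hu⟩ := Sym2.mk_surjective (u : Sym2 β)
    by_cases hb : b ∈ (v : Sym2 β)
    · by_cases ha : a ∈ (v : Sym2 β)
      · exfalso
        apply huv
        apply Subtype.ext
        have hab : a ≠ b := by
          rintro rfl
          have := u.2
          rw [← hu] at this
          simp at this
        rw [← hu]
        exact ((Sym2.mem_and_mem_iff hab).1 ⟨ha, hb⟩).symm
      · exact ⟨b, a, by rw [← hu]; exact Sym2.eq_swap, ha⟩
    · exact ⟨a, b, hu.symm, hb⟩
  have hbu : b ∈ (u : Sym2 β) := by rw [hu]; exact Sym2.mem_mk_right a b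
  have hab : a ≠ b := by
    rintro rfl
    have := u.2
    rw [hu] at this
    simp at this
  set S := blockSet Λ m r a ∪ highsBut Λ m r b u with hS
  have hcard : S.card ≤ (m - 1) + j := by
    refine (Finset.card_union_le _ _).trans ?_
    have h1 : (blockSet Λ m r a).card = m := by simp [blockSet]
    have h2 : (highsBut Λ m r b u).card = j - 1 := by
      rw [highsBut, Finset.card_map, Finset.card_erase_of_mem (by simp [edgesAt, hbu]),
        card_edgesAt hΛ]
    have h3 : 0 < j := by
      rw [← card_edgesAt hΛ b]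
      exact Finset.card_pos.2 ⟨u, by simp [edgesAt, hbu]⟩
    omega
  refine (sepNum_le S ?_ ?_ ?_).trans hcard
  · simp [hS, blockSet, highsBut]
  · simp [hS, blockSet, highsBut, edgesAt, hbv]
  · intro p
    refine hit_of_closed (C := {x | x = .inr (.inl u) ∨ ∃ i, x = .inl (b, i)}) ?_ p
      (Or.inl rfl) ?_
    · rintro x (rfl | ⟨i, rfl⟩) y hy
      · rcases y with ⟨c, i⟩ | (e | i)
        · rw [net_hl, hu, Sym2.mem_iff] at hy
          rcases hy with hy | hy
          · right
            simp only at hy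
            subst hy
            simp [hS, blockSet]
          · left
            simp only at hy
            subst hy
            exact Or.inr ⟨i, rfl⟩
        · exact hy.elim
        · exact hy.elim
      · rcases y with ⟨c, i'⟩ | (e | i')
        · left
          rw [net_ll] at hy
          have := hy.2
          simp only at this
          subst this
          exact Or.inr ⟨i', rfl⟩
        · rw [net_lh] at hy
          simp only at hy
          by_cases he : e = u
          · left; left; rw [he]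
          · right
            simp [hS, highsBut, edgesAt, hy, he]
        · exact hy.elim
    · rintro (h | ⟨i, h⟩)
      · simp only [Sum.inr.injEq, Sum.inl.injEq] at h
        exact huv h.symm
      · simp at h

lemma localConn_net_le (hm : 2 ≤ m) (hΛ : Λ.IsRegularOfDegree j)
    (x y : (β × Fin m) ⊕ (Λ.edgeSet ⊕ Fin r)) (hxy : x ≠ y) :
    localConn (net Λ m r) x y ≤ (m - 1) + j := by
  rcases x with p | (e | i)
  · rw [← card_lowNbr (r := r) hΛ p]
    exact localConn_le_of_nbr hxy _ (mem_lowNbr p)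
  · rcases y with q | (e' | i')
    · rw [localConn_comm, ← card_lowNbr (r := r) hΛ q]
      exact localConn_le_of_nbr hxy.symm _ (mem_lowNbr q)
    · unfold localConn
      rw [if_neg (by simp)]
      exact sep_high hm hΛ e e' (fun h => hxy (by rw [h]))
    · rw [localConn_comm]
      refine (localConn_le_of_nbr hxy.symm ∅ ?_).trans (by simp)
      rintro (q | x)
      · simp
      · simp
  · refine (localConn_le_of_nbr hxy ∅ ?_).trans (by simp)
    rintro (q | x)
    · simp
    · simp

lemma localConn_net_ge (hm : 2 ≤ m) (hΛ : Λ.IsRegularOfDegree j) (b : β) :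
    (m - 1) + j ≤ localConn (net Λ m r) (.inl (b, ⟨0, by omega⟩)) (.inl (b, ⟨1, by omega⟩)) := by
  set x : (β × Fin m) ⊕ (Λ.edgeSet ⊕ Fin r) := .inl (b, ⟨0, by omega⟩) with hx
  set y : (β × Fin m) ⊕ (Λ.edgeSet ⊕ Fin r) := .inl (b, ⟨1, by omega⟩) with hy
  have hxy : x ≠ y := by simp [hx, hy]
  have hadj : (net Λ m r).Adj x y := by simp [hx, hy]
  unfold localConn
  rw [if_pos hadj]
  have key : (m - 2) + j ≤ sepNum ((net Λ m r).deleteEdges {s(x, y)}) x y := by
    unfold sepNum
    apply le_csInf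
    · refine ⟨_, (lowNbr Λ m r (b, ⟨0, by omega⟩)).erase y, ?_, by simp, ?_, rfl⟩
      · rw [Finset.mem_erase]
        rintro ⟨-, h⟩
        exact (net Λ m r).loopless.irrefl _ ((mem_lowNbr _ _).2 h)
      · intro p
        refine hit_of_closed (C := {x}) ?_ p rfl ?_
        · intro a ha c hac
          simp only [Set.mem_singleton_iff] at ha
          subst ha
          rw [deleteEdges_adj] at hac
          right
          rw [Finset.mem_erase]
          refine ⟨?_, (mem_lowNbr _ _).1 hac.1⟩
          rintro rfl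
          exact hac.2 rfl
        · simpa using hxy.symm
    · rintro n ⟨S, hxS, hyS, h, rfl⟩
      have hsub : ((lowNbr Λ m r (b, ⟨0, by omega⟩)).erase y) ⊆ S := by
        intro z hz
        rw [Finset.mem_erase] at hz
        obtain ⟨hzy, hz⟩ := hz
        have hxz : (net Λ m r).Adj x z := (mem_lowNbr _ _).2 hz
        have hzx : z ≠ x := hxz.ne'
        have hzy' : (net Λ m r).Adj z y := by
          rcases z with ⟨c, i⟩ | (e | i)
          · rw [hx, net_ll] at hxz
            have := hxz.2
            simp only at this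
            subst this
            rw [hy, net_ll]
            refine ⟨fun h => hzy (by rw [h]), rfl⟩
          · rw [hx, net_lh] at hxz
            rw [hy, net_hl]
            exact hxz
          · exact hxz.elim
        have a1 : ((net Λ m r).deleteEdges {s(x, y)}).Adj x z := by
          rw [deleteEdges_adj]
          refine ⟨hxz, ?_⟩
          simp only [Set.mem_singleton_iff, Sym2.eq_iff]
          rintro (⟨-, h⟩ | ⟨h, -⟩)
          · exact hzy h
          · exact hxy h
        have a2 : ((net Λ m r).deleteEdges {s(x, y)}).Adj z y := by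
          rw [deleteEdges_adj]
          refine ⟨hzy', ?_⟩
          simp only [Set.mem_singleton_iff, Sym2.eq_iff]
          rintro (⟨h, -⟩ | ⟨h, -⟩)
          · exact hzx h
          · exact hzy h
        obtain ⟨v, hv, hvS⟩ := h (Walk.cons a1 (Walk.cons a2 Walk.nil))
        simp only [Walk.support_cons, Walk.support_nil, List.mem_cons, List.not_mem_nil,
          or_false] at hv
        rcases hv with rfl | rfl | rfl
        · exact absurd hvS hxS
        · exact hvS
        · exact absurd hvS hyS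
      have hc := Finset.card_le_card hsub
      rw [Finset.card_erase_of_mem ((mem_lowNbr _ _).1 hadj), card_lowNbr hΛ] at hc
      omega
  omega

lemma maxLocalConn_net (hm : 2 ≤ m) (hΛ : Λ.IsRegularOfDegree j) (b : β) :
    maxLocalConn (net Λ m r) = (m - 1) + j := by
  unfold maxLocalConn
  have hmem : localConn (net Λ m r) (.inl (b, ⟨0, by omega⟩)) (.inl (b, ⟨1, by omega⟩)) ∈
      {n | ∃ x y : (β × Fin m) ⊕ (Λ.edgeSet ⊕ Fin r), x ≠ y ∧ localConn (net Λ m r) x y = n} :=
    ⟨_, _, by simp, rfl⟩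
  have hle : ∀ n ∈ {n | ∃ x y : (β × Fin m) ⊕ (Λ.edgeSet ⊕ Fin r), x ≠ y ∧
      localConn (net Λ m r) x y = n}, n ≤ (m - 1) + j := by
    rintro n ⟨x, y, hxy, rfl⟩
    exact localConn_net_le hm hΛ x y hxy
  apply le_antisymm
  · exact csSup_le ⟨_, hmem⟩ hle
  · exact (localConn_net_ge hm hΛ b).trans (le_csSup ⟨_, hle⟩ hmem)

open Classical in
lemma card_edges_net (hΛ : Λ.IsRegularOfDegree j) :
    2 * (net Λ m r).edgeSet.ncard =
      Fintype.card β * m * ((m - 1) + j) + Fintype.card Λ.edgeSet * (2 * m) := by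
  have hlow : ∀ p : β × Fin m, (net Λ m r).degree (.inl p) = (m - 1) + j := by
    intro p
    rw [← card_lowNbr (r := r) hΛ p, ← card_neighborFinset_eq_degree]
    congr 1
    ext x
    rw [mem_neighborFinset]
    exact mem_lowNbr p x
  have hhigh : ∀ e : Λ.edgeSet, (net Λ m r).degree (.inr (.inl e)) = 2 * m := by
    intro e
    obtain ⟨⟨a, b⟩, he⟩ := Sym2.mk_surjective (e : Sym2 β)
    have he' : (e : Sym2 β) = s(a, b) := he.symm
    have hab : a ≠ b := by
      rintro rfl
      have := e.2
      rw [he'] at this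
      simp at this
    have hd : Disjoint ((Finset.univ : Finset (Fin m)).map (lowEmb Λ m r a))
        ((Finset.univ : Finset (Fin m)).map (lowEmb Λ m r b)) := by
      rw [Finset.disjoint_left]
      intro x hx hx'
      simp only [Finset.mem_map, Finset.mem_univ, true_and, lowEmb_apply] at hx hx'
      obtain ⟨i, rfl⟩ := hx
      obtain ⟨i', h⟩ := hx'
      simp only [Sum.inl.injEq, Prod.mk.injEq] at h
      exact hab h.1.symm
    rw [← card_neighborFinset_eq_degree]
    have : (net Λ m r).neighborFinset (.inr (.inl e)) =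
        ((Finset.univ : Finset (Fin m)).map (lowEmb Λ m r a)).disjUnion
          ((Finset.univ : Finset (Fin m)).map (lowEmb Λ m r b)) hd := by
      ext x
      rw [mem_neighborFinset]
      rcases x with ⟨c, i⟩ | (e' | i)
      · rw [net_hl, he']
        simp only [Sym2.mem_iff, Finset.disjUnion_eq_union, Finset.mem_union, Finset.mem_map,
          Finset.mem_univ, lowEmb_apply, Sum.inl.injEq, Prod.mk.injEq, true_and]
        constructor
        · rintro (rfl | rfl)
          · exact Or.inl ⟨i, rfl, rfl⟩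
          · exact Or.inr ⟨i, rfl, rfl⟩
        · rintro (⟨_, rfl, _⟩ | ⟨_, rfl, _⟩)
          · exact Or.inl rfl
          · exact Or.inr rfl
      · simp
      · simp
    rw [this, Finset.card_disjUnion, Finset.card_map, Finset.card_map, Finset.card_univ,
      Fintype.card_fin]
    ring
  have hiso : ∀ i : Fin r, (net Λ m r).degree (.inr (.inr i)) = 0 := by
    intro i
    rw [← card_neighborFinset_eq_degree, Finset.card_eq_zero]
    ext x
    rw [mem_neighborFinset]
    rcases x with q | x
    · simp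
    · simp
  have hsum := (net Λ m r).sum_degrees_eq_twice_card_edges
  rw [Fintype.sum_sum_type, Fintype.sum_sum_type] at hsum
  simp only [hlow, hhigh, hiso, Finset.sum_const, Finset.card_univ, Fintype.card_prod,
    Fintype.card_fin, smul_eq_mul, mul_zero, add_zero] at hsum
  have hn : (net Λ m r).edgeSet.ncard = (net Λ m r).edgeFinset.card := by
    rw [Set.ncard_eq_toFinset_card', edgeFinset]
  rw [hn, ← hsum]

lemma card_edgeSet_base (hΛ : Λ.IsRegularOfDegree j) :
    2 * Fintype.card Λ.edgeSet = Fintype.card β * j := by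
  have h := Λ.sum_degrees_eq_twice_card_edges
  have h2 : ∀ v, Λ.degree v = j := hΛ
  simp only [h2, Finset.sum_const, Finset.card_univ, smul_eq_mul] at h
  rw [h, edgeFinset_card]

end net

/-- `t` disjoint copies of the complete graph on `j + 1` vertices. -/
def copies (t j : ℕ) : SimpleGraph (Fin t × Fin (j + 1)) where
  Adj p q := p.1 = q.1 ∧ p.2 ≠ q.2
  symm := ⟨fun _ _ h => ⟨h.1.symm, h.2.symm⟩⟩
  loopless := ⟨fun _ h => h.2 rfl⟩

instance (t j : ℕ) : DecidableRel (copies t j).Adj := fun p q => by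
  unfold copies; infer_instance

lemma copies_regular (t j : ℕ) : (copies t j).IsRegularOfDegree j := by
  intro p
  rw [← card_neighborFinset_eq_degree]
  have : (copies t j).neighborFinset p =
      (Finset.univ.erase p.2).map ⟨fun i => (p.1, i), fun a b h => by simpa using h⟩ := by
    ext ⟨a, b⟩
    rw [mem_neighborFinset]
    simp only [copies, Finset.mem_map, Finset.mem_erase, Finset.mem_univ, and_true]
    constructor
    · rintro ⟨h1, h2⟩
      exact ⟨b, h2.symm, Prod.ext h1 rfl⟩
    · rintro ⟨c, hc, h⟩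
      have h' : (p.1, c) = (a, b) := h
      rw [Prod.mk.injEq] at h'
      exact ⟨h'.1, by rw [← h'.2]; exact hc.symm⟩
  rw [this, Finset.card_map, Finset.card_erase_of_mem (Finset.mem_univ _), Finset.card_univ,
    Fintype.card_fin]
  rfl

lemma bddAbove_f (n k : ℕ) : BddAbove {e | ∃ (V : Type) (_ : Fintype V) (G : SimpleGraph V),
    Fintype.card V = n ∧ maxLocalConn G = k ∧ G.edgeSet.ncard = e} := by
  classical
  refine ⟨n.choose 2, ?_⟩
  rintro e ⟨V, _, G, hV, -, rfl⟩
  have hn : G.edgeSet.ncard = G.edgeFinset.card := by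
    rw [Set.ncard_eq_toFinset_card', edgeFinset]
  rw [hn, ← hV]
  exact card_edgeFinset_le_card_choose_two

/-- The explicit family. -/
theorem f_ge (t j m r n : ℕ) (ht : 1 ≤ t) (hm : 2 ≤ m)
    (hn : 2 * n = t * ((j + 1) * (2 * m + j)) + 2 * r) :
    t * ((j + 1) * (m * (m - 1 + 2 * j))) ≤ 2 * f n (m - 1 + j) := by
  classical
  have hE := card_edgeSet_base (copies_regular t j)
  have hG := card_edges_net (m := m) (r := r) (copies_regular t j)
  rw [Fintype.card_prod, Fintype.card_fin, Fintype.card_fin] at hE hG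
  have hV : Fintype.card (((Fin t × Fin (j + 1)) × Fin m) ⊕ ((copies t j).edgeSet ⊕ Fin r))
      = n := by
    rw [Fintype.card_sum, Fintype.card_sum, Fintype.card_prod, Fintype.card_prod,
      Fintype.card_fin, Fintype.card_fin, Fintype.card_fin, Fintype.card_fin]
    nlinarith [hE, hn]
  have hle : (net (copies t j) m r).edgeSet.ncard ≤ f n (m - 1 + j) :=
    le_csSup (bddAbove_f n _) ⟨_, _, _, hV,
      maxLocalConn_net hm (copies_regular t j) (⟨0, ht⟩, 0), rfl⟩
  nlinarith [hE, hG, hle]

open Real in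
/-- For all `k ≥ 2` and all `n` there is a graph with `n` vertices, maximum local connectivity
exactly `k` and at least `(4 - 2√3) k (n - (k+1)²)` edges. -/
theorem result (k n : ℕ) (hk : 2 ≤ k) :
    (4 - 2 * √3) * k * ((n : ℝ) - (k + 1) ^ 2) ≤ (f n k : ℝ) := by
  have h3 : (√3) ^ 2 = 3 := Real.sq_sqrt (by norm_num)
  have h3pos : 0 ≤ √3 := Real.sqrt_nonneg 3
  have hlo : (1.732 : ℝ) < √3 := by
    rw [Real.lt_sqrt (by norm_num)]; norm_num
  have hhi : √3 < (1.7321 : ℝ) := by
    rw [Real.sqrt_lt' (by norm_num)]; norm_num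
  obtain ⟨s, hs⟩ : ∃ s : ℝ, s = 2 - √3 := ⟨_, rfl⟩
  have hs2 : s ^ 2 = 4 * s - 1 := by rw [hs]; nlinarith
  have hslo : (0.2679 : ℝ) < s := by rw [hs]; linarith
  have hshi : s < (0.268 : ℝ) := by rw [hs]; linarith
  have hkr : (2 : ℝ) ≤ k := by exact_mod_cast hk
  obtain ⟨K, hK⟩ : ∃ K : ℝ, K = (k : ℝ) + 1 := ⟨_, rfl⟩
  have hK3 : 3 ≤ K := by rw [hK]; linarith
  obtain ⟨j, hj⟩ : ∃ j : ℕ, j = ⌊s * K + 1 / 2⌋₊ := ⟨_, rfl⟩
  have hj1 : (j : ℝ) ≤ s * K + 1 / 2 := by
    rw [hj]; exact Nat.floor_le (by nlinarith)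
  have hj2 : s * K + 1 / 2 < j + 1 := by
    rw [hj]; exact Nat.lt_floor_add_one _
  have hjpos : 1 ≤ j := by
    by_contra h
    have : j = 0 := by omega
    rw [this] at hj2
    push_cast at hj2
    nlinarith
  have hjr : (1 : ℝ) ≤ j := by exact_mod_cast hjpos
  have hjk : j + 1 ≤ k := by
    by_contra h
    have h1 : k ≤ j := by omega
    have h2 : (k : ℝ) ≤ j := by exact_mod_cast h1
    rw [hK] at hj1
    nlinarith
  have hjkr : (j : ℝ) + 1 ≤ k := by exact_mod_cast hjk
  obtain ⟨m, hm⟩ : ∃ m : ℕ, m + j = k + 1 := ⟨k + 1 - j, by omega⟩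
  have hm2 : 2 ≤ m := by omega
  have hkm : m - 1 + j = k := by omega
  have hmr : (m : ℝ) = K - j := by
    have : ((m + j : ℕ) : ℝ) = ((k + 1 : ℕ) : ℝ) := by rw [hm]
    push_cast at this
    rw [hK]; linarith
  -- the size of one copy
  obtain ⟨n0, hn0⟩ : ∃ n0 : ℕ, 2 * n0 = (j + 1) * (2 * m + j) := by
    rcases Nat.even_or_odd' j with ⟨i, hi | hi⟩
    · exact ⟨(j + 1) * (m + i), by rw [hi]; ring⟩
    · exact ⟨(i + 1) * (2 * m + j), by rw [hi]; ring⟩
  have hn0pos : 0 < n0 := by
    rcases Nat.eq_zero_or_pos n0 with h | h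
    · rw [h] at hn0
      have : 0 < (j + 1) * (2 * m + j) := by positivity
      omega
    · exact h
  have hn0r : 2 * (n0 : ℝ) = (j + 1) * (2 * m + j) := by exact_mod_cast hn0
  have hn0K : (n0 : ℝ) ≤ K ^ 2 := by
    rw [hmr] at hn0r
    have h1 : (j : ℝ) + 1 ≤ K := by rw [hK]; linarith
    have h2 : ((j : ℝ) + 1) * (2 * (K - j) + j) ≤ K * (2 * K) :=
      mul_le_mul h1 (by linarith) (by linarith) (by linarith)
    rw [← hn0r] at h2
    linarith [h2, sq K]
  -- the key inequality
  have key : 2 * s * k * (2 * m + j) ≤ m * (m - 1 + 2 * j) := by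
    rw [hmr]
    have hk' : (k : ℝ) = K - 1 := by rw [hK]; ring
    rw [hk']
    have hδ : (j - s * K) ^ 2 ≤ 1 / 4 := by
      have : |(j : ℝ) - s * K| ≤ |(1 / 2 : ℝ)| := by
        rw [abs_of_pos (by norm_num : (0 : ℝ) < 1 / 2), abs_le]
        constructor <;> linarith
      have := sq_le_sq.2 this
      linarith
    have e1 : (K - j) * (K - j - 1 + 2 * j) - 2 * s * (K - 1) * (2 * (K - j) + j) =
        K * (4 * s - 1) + j * (1 - 2 * s) - (j - s * K) ^ 2 + K ^ 2 * (s ^ 2 - (4 * s - 1)) := by
      ring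
    rw [hs2, sub_self, mul_zero, add_zero] at e1
    have e2 : 3 * 0.0716 ≤ K * (4 * s - 1) :=
      mul_le_mul hK3 (by linarith) (by norm_num) (by linarith)
    have e3 : 1 * 0.464 ≤ j * (1 - 2 * s) :=
      mul_le_mul hjr (by linarith) (by norm_num) (by linarith)
    linarith
  have hc : (4 : ℝ) - 2 * √3 = 2 * s := by rw [hs]; ring
  rw [hc]
  have hcK : ((k : ℝ) + 1) ^ 2 = K ^ 2 := by rw [hK]
  rw [hcK]
  have hsk : 0 ≤ 2 * s * k := by positivity
  rcases Nat.eq_zero_or_pos (n / n0) with hq | hq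
  · have h1 : n < n0 := by
      rcases (Nat.div_eq_zero_iff).1 hq with h | h
      · omega
      · exact h
    have h2 : (n : ℝ) ≤ n0 := by exact_mod_cast h1.le
    have h3 : 2 * s * k * ((n : ℝ) - K ^ 2) ≤ 0 :=
      mul_nonpos_of_nonneg_of_nonpos hsk (by linarith)
    exact h3.trans (Nat.cast_nonneg _)
  · have hdiv := Nat.div_add_mod n n0
    have hmod := Nat.mod_lt n hn0pos
    obtain ⟨q, hqq⟩ : ∃ q, q = n / n0 := ⟨_, rfl⟩
    obtain ⟨r, hrr⟩ : ∃ r, r = n % n0 := ⟨_, rfl⟩
    rw [← hqq, ← hrr] at hdiv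
    rw [← hrr] at hmod
    rw [← hqq] at hq
    have hfe := f_ge q j m r n hq hm2 (by rw [← hn0, ← hdiv]; ring)
    rw [hkm] at hfe
    have hm1 : ((m - 1 : ℕ) : ℝ) = m - 1 := by
      rw [Nat.cast_sub (by omega)]; simp
    have hfr : (q : ℝ) * ((j + 1) * (m * (m - 1 + 2 * j))) ≤ 2 * f n k := by
      have : ((q * ((j + 1) * (m * (m - 1 + 2 * j))) : ℕ) : ℝ) ≤ ((2 * f n k : ℕ) : ℝ) := by
        exact_mod_cast hfe
      push_cast at this
      rw [hm1] at this
      exact this
    have hqr : (0 : ℝ) ≤ q := Nat.cast_nonneg _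
    have hdr : (n : ℝ) = n0 * q + r := by exact_mod_cast hdiv.symm
    have hrn : (r : ℝ) ≤ n0 := by exact_mod_cast hmod.le
    have h5 : (q : ℝ) * ((j + 1) * (2 * s * k * (2 * m + j))) ≤
        q * ((j + 1) * (m * (m - 1 + 2 * j))) := by
      apply mul_le_mul_of_nonneg_left _ hqr
      apply mul_le_mul_of_nonneg_left key (by positivity)
    have h6 : (q : ℝ) * ((j + 1) * (2 * s * k * (2 * m + j))) = 2 * (2 * s * k * (n0 * q)) := by
      have : (q : ℝ) * ((j + 1) * (2 * s * k * (2 * m + j))) =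
        2 * s * k * q * ((j + 1) * (2 * m + j)) := by ring
      rw [this, ← hn0r]; ring
    have h7 : 2 * s * k * ((n : ℝ) - K ^ 2) ≤ 2 * s * k * (n0 * q) :=
      mul_le_mul_of_nonneg_left (by linarith) hsk
    linarith

end Pool.Agent.Results.MP_0bab5c_co.CliqueNet
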